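import Pool.Agent.Helper81.Tile.EvenLower

/-!
Finite energy and translation invariance in tile coordinates.
-/

set_option autoImplicit false

namespace H81Tile
open Finset IPC H47Perc
open Pool.Agent.Helper69.RSW (P_mono P_congr P_restrict Dep P_nonneg)
open TA (rectF rect)

/-! ### finite energy -/

/-- **finite energy**: if every configuration of the event `A` can be changed on `E1` so that one of
the events `B z`, `z ∈ Z`, holds, then `P(A) ≤ 2^|E1| ∑ P(B z)` -/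
theorem sg_energy {E ι : Type*} [DecidableEq E] [DecidableEq ι] {F E1 : Finset E} {Z : Finset ι}
    {A : Finset E → Prop} {B : ι → Finset E → Prop}
    (h : ∀ S ⊆ F, A S → ∃ z ∈ Z, ∃ S' ⊆ F, S' \ E1 = S \ E1 ∧ B z S') :
    Pool.Agent.Helper69.RSW.P F A ≤
      2 ^ E1.card * ∑ z ∈ Z, Pool.Agent.Helper69.RSW.P F (B z) := by
  classical
  unfold Pool.Agent.Helper69.RSW.P
  rw [← sum_div, ← mul_div_assoc]
  apply div_le_div_of_nonneg_right _ (by positivity)
  have h1 : (F.powerset.filter A).card ≤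
      ((Z.biUnion fun z => F.powerset.filter (B z)) ×ˢ E1.powerset).card := by
    have hex : ∀ S : Finset E, ∃ S' : Finset E, (S ∈ F.powerset.filter A →
        (∃ z ∈ Z, S' ∈ F.powerset.filter (B z)) ∧ S' \ E1 = S \ E1) := by
      intro S
      by_cases hS : S ∈ F.powerset.filter A
      · rw [mem_filter, mem_powerset] at hS
        obtain ⟨z, hz, S', h2, h3, h4⟩ := h S hS.1 hS.2
        exact ⟨S', fun _ => ⟨⟨z, hz, mem_filter.2 ⟨mem_powerset.2 h2, h4⟩⟩, h3⟩⟩
      · exact ⟨S, fun hc => absurd hc hS⟩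
    choose f hf using hex
    apply card_le_card_of_injOn (fun S => (f S, S ∩ E1))
    · intro S hS
      rw [mem_coe] at hS
      obtain ⟨⟨z, hz, h2⟩, _⟩ := hf S hS
      rw [mem_coe, mem_product, mem_biUnion, mem_powerset]
      exact ⟨⟨z, hz, h2⟩, inter_subset_right⟩
    · intro S hS T hT hST
      rw [mem_coe] at hS hT
      rw [Prod.mk.injEq] at hST
      have h2 := (hf S hS).2
      have h3 := (hf T hT).2
      rw [hST.1] at h2
      rw [← sdiff_union_inter S E1, ← sdiff_union_inter T E1, ← h2, ← h3, hST.2]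
  have h2 : ((Z.biUnion fun z => F.powerset.filter (B z)) ×ˢ E1.powerset).card ≤
      2 ^ E1.card * ∑ z ∈ Z, (F.powerset.filter (B z)).card := by
    rw [card_product, card_powerset, mul_comm]
    exact Nat.mul_le_mul_left _ card_biUnion_le
  have h3 : ((F.powerset.filter A).card : ℝ) ≤
      ((2 ^ E1.card * ∑ z ∈ Z, (F.powerset.filter (B z)).card : ℕ) : ℝ) := by
    exact_mod_cast h1.trans h2
  push_cast at h3
  convert h3 using 3

/-! ### translations -/

/-- the translated tile configuration -/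
def sgt (z : ℤ × ℤ) (t : TC) : TC := fun p => t (p + z)

/-- translation of directed sides -/
def sgd (z : ℤ × ℤ) (d : DS) : DS := (d.1 + z, d.2)

lemma sgd_rev (z : ℤ × ℤ) (d : DS) : sgd z (rev d) = rev (sgd z d) := by
  unfold sgd rev
  simp only
  rw [add_right_comm]

lemma sgd_nxt (z : ℤ × ℤ) (t : TC) (d : DS) : sgd z (nxt (sgt z t) d) = nxt t (sgd z d) := by
  unfold nxt
  rw [sgd_rev]
  rfl

lemma sgd_iter (z : ℤ × ℤ) (t : TC) (d : DS) (n : ℕ) :
    sgd z ((nxt (sgt z t))^[n] d) = (nxt t)^[n] (sgd z d) := by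
  induction n with
  | zero => rfl
  | succ n ih =>
    rw [Function.iterate_succ_apply', Function.iterate_succ_apply', sgd_nxt, ih]

lemma CLeaves.sub {t : TC} {D D' : Set (ℤ × ℤ)} {K : Set DS} {d : DS} (h : CLeaves t D K d)
    (hD : D' ⊆ D) : CLeaves t D' K d := by
  obtain ⟨n, h1, h2⟩ := h
  exact ⟨n, fun hc => h1 (hD hc), h2⟩

lemma cleaves_sg {z : ℤ × ℤ} {t : TC} {D D' : Set (ℤ × ℤ)} {K K' : Set DS} {d : DS}
    (h : CLeaves t D K (sgd z d)) (hD : ∀ p ∈ D', p + z ∈ D) (hK : ∀ e ∈ K', sgd z e ∈ K) :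
    CLeaves (sgt z t) D' K' d := by
  obtain ⟨n, h1, h2⟩ := h
  rw [← sgd_iter] at h1
  refine ⟨n, fun hc => h1 (hD _ hc), fun j h0 hj hc => h2 j h0 hj ?_⟩
  rw [← sgd_iter]
  exact hK _ hc

/-- the slit of length `k` at `(a, b)` -/
def CutAt (k : ℕ) (z : ℤ × ℤ) : Set DS :=
  {d | ∃ x : ℤ, 0 ≤ x ∧ x < k ∧ (d = up (z.1 + x) z.2 ∨ d = dn (z.1 + x) z.2)}

/-- all interfaces from the slit at `z` leave the box -/
def SlitLeave (k : ℕ) (z : ℤ × ℤ) (n : ℤ) (t : TC) : Prop :=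
  ∀ d ∈ CutAt k z, CLeaves t (tbox (-n) n (-n) n) (CutAt k z) d

lemma sgd_up (z : ℤ × ℤ) (x : ℤ) : sgd z (up x 0) = up (z.1 + x) z.2 := by
  unfold sgd up
  refine Prod.ext (Prod.ext ?_ ?_) rfl
  · simp [add_comm]
  · simp

lemma sgd_dn (z : ℤ × ℤ) (x : ℤ) : sgd z (dn x 0) = dn (z.1 + x) z.2 := by
  unfold sgd dn
  refine Prod.ext (Prod.ext ?_ ?_) rfl
  · simp [add_comm]
  · simp only [Prod.snd_add]
    ring

lemma tbox_shift {m n : ℤ} {z : ℤ × ℤ} (h1 : |z.1 + z.2| + 2 * m ≤ 2 * n)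
    (h2 : |z.2 - z.1| + 2 * m ≤ 2 * n) {p : ℤ × ℤ} (hp : p ∈ tbox (-m) m (-m) m) :
    p + z ∈ tbox (-n) n (-n) n := by
  rw [mem_tbox] at hp ⊢
  simp only [Prod.fst_add, Prod.snd_add]
  have e1 := abs_le.1 (le_refl |z.1 + z.2|)
  have e2 := abs_le.1 (le_refl |z.2 - z.1|)
  omega

theorem allLeave_of_slit {k : ℕ} {m n : ℤ} {z : ℤ × ℤ} (h1 : |z.1 + z.2| + 2 * m ≤ 2 * n)
    (h2 : |z.2 - z.1| + 2 * m ≤ 2 * n) {t : TC} (h : SlitLeave k z n t) :
    AllLeave k m (sgt z t) := by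
  intro j hj
  have hK : ∀ e ∈ Cut k, sgd z e ∈ CutAt k z := by
    rintro e ⟨x, h3, h4, rfl | rfl⟩
    · exact ⟨x, h3, h4, Or.inl (sgd_up z x)⟩
    · exact ⟨x, h3, h4, Or.inr (sgd_dn z x)⟩
  exact cleaves_sg (h _ (hK _ (en_cut hj))) (fun p hp => tbox_shift h1 h2 hp) hK

/-! ### the law of the shifted configuration -/

theorem P_shift {m n : ℤ} {z : ℤ × ℤ} (h1 : |z.1 + z.2| + 2 * m ≤ 2 * n)
    (h2 : |z.2 - z.1| + 2 * m ≤ 2 * n) {Q : TC → Prop}
    (hQ : ∀ t t' : TC, (∀ p ∈ tbox (-m) m (-m) m, t p = t' p) → Q t → Q t') :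
    Pool.Agent.Helper69.RSW.P (edgesIn (bx n)) (fun ω => Q (sgt z (tcOf ω))) =
      Pool.Agent.Helper69.RSW.P (edgesIn (bx m)) (fun ω => Q (tcOf ω)) := by
  classical
  unfold bx
  have hQ' : ∀ t t' : TC, (∀ p ∈ tbox (-n) n (-n) n, t p = t' p) → Q (sgt z t) → Q (sgt z t') := by
    intro t t' h
    exact hQ _ _ fun p hp => h _ (tbox_shift h1 h2 hp)
  rw [P_box (Q := fun t => Q (sgt z t)) hQ', P_box hQ]
  have e1 := abs_le.1 (le_refl |z.1 + z.2|)
  have e2 := abs_le.1 (le_refl |z.2 - z.1|)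
  -- the translation in colour-blind coordinates
  set s : ℤ × ℤ := (z.1 + z.2, z.2 - z.1) with hs
  have hf : ∀ p : ℤ × ℤ, fT (p + z) = fT p + s := by
    intro p
    unfold fT
    rw [hs]
    ext
    · simp only [Prod.fst_add, Prod.snd_add]; ring
    · simp only [Prod.fst_add, Prod.snd_add]; ring
  have hinj : Set.InjOn (fun v : ℤ × ℤ => v + s) (rectF (2 * m) (2 * m) : Set (ℤ × ℤ)) :=
    fun a _ b _ h => add_right_cancel h
  have hsub : (rectF (2 * m) (2 * m)).image (fun v : ℤ × ℤ => v + s) ⊆ rectF (2 * n) (2 * n) := by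
    intro v hv
    rw [mem_image] at hv
    obtain ⟨w, hw, rfl⟩ := hv
    rw [mem_rectF] at hw ⊢
    simp only [Prod.fst_add, Prod.snd_add, hs]
    omega
  have eb : ∀ b b' : Bool, (b = true ↔ b' = true) → b = b' := by decide
  have hdep : Dep ((rectF (2 * m) (2 * m)).image (fun v : ℤ × ℤ => v + s))
      (fun S => Q (sgt z (tcM (fun v => v ∈ S)))) := by
    intro S
    have hh : ∀ p ∈ tbox (-m) m (-m) m, sgt z (tcM (fun v => v ∈ S)) p =
        sgt z (tcM (fun v => v ∈ S ∩ (rectF (2 * m) (2 * m)).image (fun v : ℤ × ℤ => v + s))) p := by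
      intro p hp
      unfold sgt
      apply eb
      rw [tcM_true, tcM_true, mem_inter, hf]
      have : fT p + s ∈ (rectF (2 * m) (2 * m)).image (fun v : ℤ × ℤ => v + s) :=
        mem_image.2 ⟨fT p, fT_rect.2 hp, rfl⟩
      tauto
    exact ⟨hQ _ _ hh, hQ _ _ (fun p hp => (hh p hp).symm)⟩
  rw [P_restrict hsub hdep, CB.P_image' _ _ hinj]
  refine P_congr fun S _ => ?_
  have hh : ∀ p ∈ tbox (-m) m (-m) m,
      sgt z (tcM (fun v => v ∈ S.image (fun v : ℤ × ℤ => v + s))) p = tcM (fun v => v ∈ S) p := by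
    intro p hp
    unfold sgt
    apply eb
    rw [tcM_true, tcM_true, hf, mem_image]
    constructor
    · rintro ⟨w, hw, h3⟩
      rwa [← add_right_cancel h3]
    · intro h3
      exact ⟨_, h3, rfl⟩
  exact ⟨hQ _ _ hh, hQ _ _ (fun p hp => (hh p hp).symm)⟩

/-! ### changing the configuration on finitely many tiles -/

lemma tcOf_true_iff {ω : Set (Sym2 (ℤ × ℤ))} {p : ℤ × ℤ} :
    tcOf ω p = true ↔ ((p.1 + p.2) % 2 = 0 ↔ te p ∈ ω) := by
  unfold tcOf
  by_cases h : (p.1 + p.2) % 2 = 0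
  · rw [if_pos h]
    simp [h]
  · rw [if_neg h]
    simp [h]

theorem exists_patch {n : ℤ} {Q : Finset (ℤ × ℤ)} (hQ : ∀ p ∈ Q, p ∈ tbox (-n) n (-n) n)
    {ω : Finset (Sym2 (ℤ × ℤ))} (hω : ω ⊆ edgesIn (bx n)) {t' : TC}
    (ht : ∀ p, p ∉ Q → t' p = tcOf ω p) :
    ∃ ω' ⊆ edgesIn (bx n), ω' \ Q.image te = ω \ Q.image te ∧ tcOf ω' = t' := by
  classical
  have hsub : (Q.filter (fun p => t' p = true ↔ (p.1 + p.2) % 2 = 0)).image te ⊆ Q.image te :=
    image_subset_image (filter_subset _ _)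
  refine ⟨(ω \ Q.image te) ∪ (Q.filter (fun p => t' p = true ↔ (p.1 + p.2) % 2 = 0)).image te,
    ?_, ?_, ?_⟩
  · refine union_subset (sdiff_subset.trans hω) ?_
    intro e he
    rw [mem_image] at he
    obtain ⟨p, hp, rfl⟩ := he
    exact Finset.mem_coe.1 (hQ p (mem_filter.1 hp).1)
  · ext e
    rw [mem_sdiff, mem_sdiff, mem_union, mem_sdiff]
    constructor
    · rintro ⟨h1 | h1, h2⟩
      · exact h1
      · exact absurd (hsub h1) h2
    · rintro ⟨h1, h2⟩
      exact ⟨Or.inl ⟨h1, h2⟩, h2⟩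
  · funext p
    have eb : ∀ b b' : Bool, (b = true ↔ b' = true) → b = b' := by decide
    apply eb
    rw [tcOf_true_iff]
    by_cases hp : p ∈ Q
    · have h1 : te p ∈ (((ω \ Q.image te) ∪
          (Q.filter (fun p => t' p = true ↔ (p.1 + p.2) % 2 = 0)).image te :
            Finset (Sym2 (ℤ × ℤ))) : Set (Sym2 (ℤ × ℤ))) ↔
          (t' p = true ↔ (p.1 + p.2) % 2 = 0) := by
        rw [Finset.mem_coe, mem_union, mem_sdiff]
        constructor
        · rintro (⟨_, h2⟩ | h2)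
          · exact absurd (mem_image_of_mem te hp) h2
          · rw [mem_image] at h2
            obtain ⟨q, hq, h3⟩ := h2
            rw [← te_inj h3]
            exact (mem_filter.1 hq).2
        · intro h2
          exact Or.inr (mem_image_of_mem te (mem_filter.2 ⟨hp, h2⟩))
      rw [h1]
      tauto
    · have h1 : te p ∈ (((ω \ Q.image te) ∪
          (Q.filter (fun p => t' p = true ↔ (p.1 + p.2) % 2 = 0)).image te :
            Finset (Sym2 (ℤ × ℤ))) : Set (Sym2 (ℤ × ℤ))) ↔ te p ∈ (ω : Set (Sym2 (ℤ × ℤ))) := by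
        rw [Finset.mem_coe, mem_union, mem_sdiff, Finset.mem_coe]
        have h2 : te p ∉ Q.image te := by
          rw [mem_image]
          rintro ⟨q, hq, h3⟩
          exact hp (te_inj h3 ▸ hq)
        constructor
        · rintro (⟨h3, _⟩ | h3)
          · exact h3
          · exact absurd (hsub h3) h2
        · intro h3
          exact Or.inl ⟨h3, h2⟩
      rw [h1, ht p hp, tcOf_true_iff]

/-! ### the surgery bound -/

/-- **(S3)**: if every configuration of the event `A` can be changed on the finite set `Q` of tiles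
so that all interfaces from a slit at a point of the finite set `Z` leave the box, then `P(A)` is
bounded by a constant times the probability for the slit at the origin in a smaller box -/
theorem surg_energy {k n m : ℕ} (hkm : k ≤ 2 * m) (Q Z : Finset (ℤ × ℤ))
    (hQ : ∀ p ∈ Q, p ∈ tbox (-(n : ℤ)) n (-n) n)
    (hZ : ∀ z ∈ Z, |z.1 + z.2| + 2 * m ≤ 2 * n ∧ |z.2 - z.1| + 2 * m ≤ 2 * n)
    {A : Finset (Sym2 (ℤ × ℤ)) → Prop}
    (h : ∀ ω ⊆ edgesIn (bx n), A ω → ∃ t' : TC, (∀ p, p ∉ Q → t' p = tcOf ω p) ∧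
      ∃ z ∈ Z, SlitLeave k z n t') :
    Pool.Agent.Helper69.RSW.P (edgesIn (bx n)) A ≤ 2 ^ Q.card * Z.card *
      Pool.Agent.Helper69.RSW.P (edgesIn (bx m)) (fun ω => AllLeave k m (tcOf ω)) := by
  classical
  have h1 : Pool.Agent.Helper69.RSW.P (edgesIn (bx n)) A ≤ 2 ^ (Q.image te).card *
      ∑ z ∈ Z, Pool.Agent.Helper69.RSW.P (edgesIn (bx n))
        (fun ω => AllLeave k m (sgt z (tcOf ω))) := by
    apply sg_energy
    intro S hS hA
    obtain ⟨t', ht, z, hz, h2⟩ := h S hS hA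
    obtain ⟨S', h3, h4, h5⟩ := exists_patch hQ hS ht
    refine ⟨z, hz, S', h3, h4, ?_⟩
    rw [h5]
    exact allLeave_of_slit (hZ z hz).1 (hZ z hz).2 h2
  have h2 : ∀ z ∈ Z, Pool.Agent.Helper69.RSW.P (edgesIn (bx n))
      (fun ω => AllLeave k m (sgt z (tcOf ω))) =
      Pool.Agent.Helper69.RSW.P (edgesIn (bx m)) (fun ω => AllLeave k m (tcOf ω)) := fun z hz =>
    P_shift (hZ z hz).1 (hZ z hz).2 fun t t' => AllLeave.congr hkm
  rw [sum_congr rfl h2, sum_const, nsmul_eq_mul, card_image_of_injective _ fun _ _ => te_inj,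
    ← mul_assoc] at h1
  exact h1

end H81Tile
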